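import Pool.Agent.Lib.MP_a7239a_co.RC.Defs
import Pool.Agent.Lib.MP_a7239a_co.GC.Defs

/-!
# RC/CQ1: representations lift along a subgroup with few holes
-/

open Finset
open scoped Pointwise

namespace Pool.Agent.Lib.MPa7239a.RC

open Pool.Agent.Lib.MPa7239a.GC
open Pool.Agent.Lib.MPa7239a.RK

variable {Q : Type*} [AddCommGroup Q] [Fintype Q] [DecidableEq Q]

namespace CQ1M

open Classical in
/-- the elements of `P` congruent to `p` -/
noncomputable def cut (H : AddSubgroup Q) (P : Finset Q) (p : Q) : Finset Q :=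
  P.filter (fun x => x - p ∈ H)

omit [Fintype Q] [DecidableEq Q] in
theorem mem_cut {H : AddSubgroup Q} {P : Finset Q} {p x : Q} :
    x ∈ cut H P p ↔ x ∈ P ∧ x - p ∈ H := by
  classical
  rw [cut, mem_filter]

omit [DecidableEq Q] in
theorem card_coset (H : AddSubgroup Q) (p : Q) : #(cut H univ p) = Nat.card H := by
  classical
  have h1 : Nat.card H = #(univ.filter (fun x : Q => x ∈ H)) := by
    rw [Nat.card_eq_fintype_card, Fintype.card_subtype]
  rw [h1]
  refine Finset.card_bij (fun x _ => x - p) ?_ ?_ ?_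
  · intro x hx
    exact mem_filter.2 ⟨mem_univ _, (mem_cut.1 hx).2⟩
  · intro x _ y _ hxy
    exact sub_left_injective hxy
  · intro y hy
    refine ⟨y + p, mem_cut.2 ⟨mem_univ _, ?_⟩, add_sub_cancel_right y p⟩
    rw [add_sub_cancel_right]
    exact (mem_filter.1 hy).2

/-- pigeonhole: two large parts of cosets add to a coset -/
theorem add_coset {H : AddSubgroup Q} {P : Finset Q} {p q x : Q}
    (hpq : Nat.card H < #(cut H P p) + #(cut H P q)) (hx : x - (p + q) ∈ H) :
    ∃ a ∈ P, ∃ b ∈ P, a + b = x := by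
  classical
  by_contra hno
  have hdis : Disjoint (cut H P p) ((cut H P q).image (fun b => x - b)) := by
    rw [Finset.disjoint_left]
    intro a ha hb
    obtain ⟨b, hb1, hb2⟩ := mem_image.1 hb
    exact hno ⟨a, (mem_cut.1 ha).1, b, (mem_cut.1 hb1).1, by rw [← hb2]; abel⟩
  have hsub : cut H P p ∪ (cut H P q).image (fun b => x - b) ⊆ cut H univ p := by
    intro y hy
    rcases mem_union.1 hy with hy | hy
    · exact mem_cut.2 ⟨mem_univ _, (mem_cut.1 hy).2⟩
    · obtain ⟨b, hb1, hb2⟩ := mem_image.1 hy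
      refine mem_cut.2 ⟨mem_univ _, ?_⟩
      rw [← hb2]
      have : x - b - p = (x - (p + q)) - (b - q) := by abel
      rw [this]
      exact H.sub_mem hx (mem_cut.1 hb1).2
  have hc := card_le_card hsub
  rw [card_union_of_disjoint hdis, card_image_of_injective _ (sub_right_injective), card_coset]
    at hc
  omega

/-- few holes: two different cosets carry more than `|H|` elements -/
theorem two_cuts {H : AddSubgroup Q} {P : Finset Q} {p q : Q} (hp : p ∈ P) (hq : q ∈ P)
    (hpq : q - p ∉ H) (hholes : #(hull H P) + 1 ≤ #P + Nat.card H) :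
    Nat.card H < #(cut H P p) + #(cut H P q) := by
  classical
  have hP : #P + (#(cut H univ p \ cut H P p) + #(cut H univ q \ cut H P q)) ≤ #(hull H P) := by
    have hd1 : Disjoint (cut H univ p \ cut H P p) (cut H univ q \ cut H P q) := by
      rw [Finset.disjoint_left]
      intro y hy1 hy2
      refine hpq ?_
      have h1 := (mem_cut.1 (mem_sdiff.1 hy1).1).2
      have h2 := (mem_cut.1 (mem_sdiff.1 hy2).1).2
      have : q - p = (y - p) - (y - q) := by abel
      rw [this]
      exact H.sub_mem h1 h2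
    have hd2 : Disjoint P ((cut H univ p \ cut H P p) ∪ (cut H univ q \ cut H P q)) := by
      rw [Finset.disjoint_left]
      intro y hy1 hy2
      rcases mem_union.1 hy2 with hy2 | hy2
      · exact (mem_sdiff.1 hy2).2 (mem_cut.2 ⟨hy1, (mem_cut.1 (mem_sdiff.1 hy2).1).2⟩)
      · exact (mem_sdiff.1 hy2).2 (mem_cut.2 ⟨hy1, (mem_cut.1 (mem_sdiff.1 hy2).1).2⟩)
    rw [← card_union_of_disjoint hd1, ← card_union_of_disjoint hd2]
    apply card_le_card
    intro y hy
    rcases mem_union.1 hy with hy | hy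
    · exact mem_hull.2 ⟨y, hy, by rw [sub_self]; exact H.zero_mem⟩
    · rcases mem_union.1 hy with hy | hy
      · exact mem_hull.2 ⟨p, hp, (mem_cut.1 (mem_sdiff.1 hy).1).2⟩
      · exact mem_hull.2 ⟨q, hq, (mem_cut.1 (mem_sdiff.1 hy).1).2⟩
  have hs : ∀ r, cut H P r ⊆ cut H univ r := fun r y hy =>
    mem_cut.2 ⟨mem_univ _, (mem_cut.1 hy).2⟩
  have c1 := card_sdiff_add_card_eq_card (hs p)
  have c2 := card_sdiff_add_card_eq_card (hs q)
  rw [card_coset] at c1 c2
  omega

omit [Fintype Q] [DecidableEq Q] in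
/-- a sum of `k` elements is congruent to `k p` or has a term not congruent to `p` -/
theorem split_off {H : AddSubgroup Q} {P : Finset Q} {p : Q} (k : ℕ) :
    ∀ r ∈ ball P k, r - k • p ∈ H ∨
      ∃ j, j + 1 = k ∧ ∃ q ∈ P, ∃ s ∈ ball P j, q - p ∉ H ∧ q + s = r := by
  induction k with
  | zero =>
    intro r hr
    left
    rw [mem_ball_zero.1 hr, zero_smul, sub_self]
    exact H.zero_mem
  | succ k ih =>
    intro r hr
    obtain ⟨y, hy, d, hd, rfl⟩ := mem_ball_succ.1 hr
    by_cases hdp : d - p ∈ H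
    · rcases ih y hy with h | ⟨j, hj, q, hq, s, hs, hqp, hqs⟩
      · left
        have : y + d - (k + 1) • p = (y - k • p) + (d - p) := by
          rw [succ_nsmul]; abel
        rw [this]
        exact H.add_mem h hdp
      · right
        refine ⟨k, rfl, q, hq, s + d, ?_, hqp, by rw [← hqs]; abel⟩
        rw [← hj]
        exact mem_ball_succ.2 ⟨s, hs, d, hd, rfl⟩
    · right
      exact ⟨k, rfl, d, hd, y, hy, hdp, add_comm d y⟩

/-- the main step for one `p` -/
theorem step {H : AddSubgroup Q} {P : Finset Q} {t : ℕ} {p : Q} (hp : p ∈ P)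
    (hholes : #(hull H P) + 1 ≤ #P + Nat.card H) (ht : 2 ≤ t)
    (hfull : ∀ x : Q, ∃ r ∈ ball P (t - 1), x - r ∈ H) (g : Q) :
    g ∈ ball P t ∨ g - t • p ∈ H := by
  obtain ⟨r, hr, hgr⟩ := hfull (g - p)
  rcases split_off (H := H) (p := p) (t - 1) r hr with h | ⟨j, hj, q, hq, s, hs, hqp, hqs⟩
  · right
    have e : g - t • p = (g - p - r) + (r - (t - 1) • p) := by
      have : t • p = (t - 1) • p + p := by
        rw [← succ_nsmul]; congr 1; omega
      rw [this]; abel
    rw [e]
    exact H.add_mem hgr h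
  · left
    obtain ⟨a, ha, b, hb, hab⟩ := add_coset (x := g - s) (two_cuts hp hq hqp hholes)
      (by
        have : g - s - (p + q) = g - p - r := by rw [← hqs]; abel
        rw [this]; exact hgr)
    have ht' : t = (j + 1) + 1 := by omega
    rw [ht']
    refine mem_ball_succ.2 ⟨s + a, mem_ball_succ.2 ⟨s, hs, a, ha, rfl⟩, b, hb, ?_⟩
    rw [add_assoc, hab]; abel

/-- twice a large part of a coset -/
theorem double {H : AddSubgroup Q} {P : Finset Q} {t : ℕ} {p : Q} (hp : p ∈ P) (ht : 2 ≤ t)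
    (hbig : Nat.card H < #(cut H P p) + #(cut H P p)) {g : Q} (hg : g - t • p ∈ H) :
    g ∈ ball P t := by
  obtain ⟨j, rfl⟩ := Nat.exists_eq_add_of_le' ht
  obtain ⟨a, ha, b, hb, hab⟩ := add_coset (x := g - j • p) hbig
    (by
      have : g - j • p - (p + p) = g - (j + 2) • p := by
        rw [add_nsmul, two_nsmul]; abel
      rw [this]; exact hg)
  have hj : ∀ j : ℕ, j • p ∈ ball P j := by
    intro j
    induction j with
    | zero => exact mem_ball_zero.2 (zero_smul _ _)
    | succ j ih => exact mem_ball_succ.2 ⟨_, ih, p, hp, (succ_nsmul p j).symm⟩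
  refine mem_ball_succ.2 ⟨j • p + a, mem_ball_succ.2 ⟨_, hj j, a, ha, rfl⟩, b, hb, ?_⟩
  rw [add_assoc, hab]; abel

end CQ1M

/-- `g ∈ Q`. Take `p₁, p₂ ∈ P` in different cosets of `H`. `g - p₁` is congruent to some
`r ∈ ball P (t - 1)`; if a term `q` of `r` is not congruent to `p₁`: `P ∩ (p₁ + H)` and `P ∩ (q + H)`
have together more than `|H|` elements, so their sum is the coset `p₁ + q + H` and `g ∈ ball P t`.
Otherwise `g` is congruent to `t p₁`; the same for `p₂`; for one of them `P ∩ (pᵢ + H)` has more than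
`|H| / 2` elements, so twice this set is a coset, and `g ∈ ball P t`. -/
theorem lift_full {P : Finset Q} {H : AddSubgroup Q} {t : ℕ} (h0 : (0 : Q) ∈ P)
    (hgen : AddSubgroup.closure (P : Set Q) = ⊤) (hH : H ≠ ⊤)
    (hholes : #(hull H P) + 1 ≤ #P + Nat.card H) (ht : 2 ≤ t)
    (hfull : ∀ x : Q, ∃ r ∈ ball P (t - 1), x - r ∈ H) : ∀ g : Q, g ∈ ball P t := by
  intro g
  obtain ⟨p, hp, hpH⟩ : ∃ p ∈ P, p ∉ H := by
    by_contra hno
    push Not at hno
    apply hH
    rw [eq_top_iff, ← hgen, AddSubgroup.closure_le]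
    exact fun x hx => hno x hx
  rcases CQ1M.step h0 hholes ht hfull g with h | h1
  · exact h
  rcases CQ1M.step hp hholes ht hfull g with h | h2
  · exact h
  have hc := CQ1M.two_cuts h0 hp (by rwa [sub_zero]) hholes
  rcases le_total (#(CQ1M.cut H P 0)) (#(CQ1M.cut H P p)) with hle | hle
  · exact CQ1M.double hp ht (by omega) h2
  · exact CQ1M.double h0 ht (by omega) h1

end Pool.Agent.Lib.MPa7239a.RC
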