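import Pool.Agent.Lib.MP_a7239a_co.RK.Defs

/-!
# Theorem R* for huge exponents: definitions

Isoperimetric atoms (Hamidoune), Sidon-like sets, the hull of a set modulo a subgroup.
-/

open Finset
open scoped Pointwise

namespace Pool.Agent.Lib.MPa7239a.RC

variable {Q : Type*} [AddCommGroup Q] [Fintype Q] [DecidableEq Q]

/-- all differences are different -/
def Sid (M : Finset Q) : Prop :=
  ∀ a ∈ M, ∀ b ∈ M, ∀ c ∈ M, ∀ d ∈ M, a ≠ b → a - b = c - d → a = c ∧ b = d

/-- `M` is an atom of `S`: among the sets `X` with at least two elements and at least two elements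
outside `X + S`, the number `|X + S| - |X|` is smallest for `M`, and `M` has the smallest size with
this number `k` -/
structure Atom (S M : Finset Q) (k : ℕ) : Prop where
  two : 2 ≤ #M
  sep : #(M + S) + 2 ≤ Fintype.card Q
  eq : #(M + S) = #M + k
  min : ∀ X : Finset Q, 2 ≤ #X → #(X + S) + 2 ≤ Fintype.card Q → #X + k ≤ #(X + S)
  small : ∀ X : Finset Q, 2 ≤ #X → #(X + S) + 2 ≤ Fintype.card Q → #(X + S) ≤ #X + k → #M ≤ #X

open Classical in
/-- the union of the cosets of `H` that meet `P` -/
noncomputable def hull (H : AddSubgroup Q) (P : Finset Q) : Finset Q :=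
  univ.filter (fun x => ∃ p ∈ P, x - p ∈ H)

theorem mem_hull {H : AddSubgroup Q} {P : Finset Q} {x : Q} :
    x ∈ hull H P ↔ ∃ p ∈ P, x - p ∈ H := by
  classical
  rw [hull, mem_filter]
  exact ⟨fun h => h.2, fun h => ⟨mem_univ _, h⟩⟩

end Pool.Agent.Lib.MPa7239a.RC
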