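import Pool.Agent.Lib.MP_a7239a_co.RC.Defs
import Pool.Agent.Lib.MP_a7239a_co.GC.GROW
import Pool.Agent.Lib.MP_a7239a_co.RF.VOS

/-!
# A critical step of the growth of the balls
-/

open Finset
open scoped Pointwise

namespace Pool.Agent.Lib.MPa7239a.RC

open Pool.Agent.Lib.MPa7239a.GC

variable {Q : Type*} [AddCommGroup Q] [Fintype Q] [DecidableEq Q]

namespace CQ2M

theorem ball_succ (P : Finset Q) (i : ℕ) : ball P (i + 1) = ball P i + P := by
  ext x
  rw [mem_ball_succ, Finset.mem_add]

/-- a stable ball is everything -/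
theorem eq_univ_of_stable {P : Finset Q} (h0 : (0 : Q) ∈ P)
    (hgen : AddSubgroup.closure (P : Set Q) = ⊤) {i : ℕ}
    (h : ball P (i + 1) ⊆ ball P i) (x : Q) : x ∈ ball P i := by
  -- the ball is stable under adding any multiple, hence any element
  have h1 : ∀ p ∈ P, ∀ y ∈ ball P i, y + p ∈ ball P i := fun p hp y hy =>
    h (mem_ball_succ.2 ⟨y, hy, p, hp, rfl⟩)
  have h2 : ∀ p ∈ P, ∀ k : ℕ, ∀ y ∈ ball P i, y + k • p ∈ ball P i := by
    intro p hp k
    induction k with
    | zero =>
      intro y hy
      rwa [zero_smul, add_zero]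
    | succ k ih =>
      intro y hy
      have h3 := h1 p hp _ (ih y hy)
      rwa [add_assoc, ← succ_nsmul] at h3
  have h3 : ∀ x : Q, ∀ y ∈ ball P i, y + x ∈ ball P i := by
    intro x
    have hx : x ∈ AddSubgroup.closure (P : Set Q) := by
      rw [hgen]
      exact AddSubgroup.mem_top x
    induction hx using AddSubgroup.closure_induction with
    | mem p hp => exact h1 p (mem_coe.1 hp)
    | zero =>
      intro y hy
      rwa [add_zero]
    | add a b _ _ iha ihb =>
      intro y hy
      rw [← add_assoc]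
      exact ihb _ (iha y hy)
    | neg a _ iha =>
      intro y hy
      -- `- a` is a multiple of `a`
      have h4 : ∀ k : ℕ, ∀ y ∈ ball P i, y + k • a ∈ ball P i := by
        intro k
        induction k with
        | zero =>
          intro y hy
          rwa [zero_smul, add_zero]
        | succ k ih =>
          intro y hy
          have h5 := iha _ (ih y hy)
          rwa [add_assoc, ← succ_nsmul] at h5
      have h5 := h4 (addOrderOf a - 1) y hy
      have h6 : (addOrderOf a - 1) • a = -a := by
        have h7 : (addOrderOf a - 1 + 1) • a = 0 := by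
          rw [Nat.sub_add_cancel (addOrderOf_pos a)]
          exact addOrderOf_nsmul_eq_zero a
        rw [succ_nsmul] at h7
        exact eq_neg_of_add_eq_zero_left h7
      rwa [h6] at h5
  have h4 := h3 x 0 (zero_mem_ball h0 i)
  rwa [zero_add] at h4

end CQ2M

theorem critical_of {P : Finset Q} {m t : ℕ} (h0 : (0 : Q) ∈ P)
    (hgen : AddSubgroup.closure (P : Set Q) = ⊤) (hm : 2 ≤ m) (hPm : Fintype.card Q < m * #P)
    (ht : m ≤ t) (hne : ∃ y : Q, y ∉ ball P t) (hQ : 3 ≤ Fintype.card Q) :
    ∃ X : Finset Q, 2 ≤ #X ∧ #(X + P) + 2 ≤ Fintype.card Q ∧ #(X + P) + 1 ≤ #X + #P := by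
  obtain ⟨y, hy⟩ := hne
  have hmono : ∀ i j : ℕ, i ≤ j → ball P i ⊆ ball P j := fun i j hij => ball_mono h0 hij
  -- strict growth up to `t`
  have hgrow : ∀ i, i + 1 ≤ t → #(ball P i) + 1 ≤ #(ball P (i + 1)) := by
    intro i hi
    by_contra hcon
    have h1 : #(ball P (i + 1)) ≤ #(ball P i) := by omega
    have h2 := eq_of_subset_of_card_le (hmono i (i + 1) (by omega)) h1
    exact hy (hmono i t (by omega) (CQ2M.eq_univ_of_stable h0 hgen h2.symm.subset y))
  -- `P` is not everything but two elements
  have hP2 : #P + 2 ≤ Fintype.card Q := by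
    by_contra hcon
    refine hy (hmono 2 t (by omega) ?_)
    rw [CQ2M.ball_succ]
    have h1 : ball P 1 = P := by
      ext x
      exact mem_ball_one
    rw [h1]
    by_contra hcon2
    have h2 : Disjoint P (P.image (fun p => y - p)) := by
      rw [disjoint_left]
      intro a ha ha'
      obtain ⟨p, hp, rfl⟩ := mem_image.1 ha'
      exact hcon2 (Finset.mem_add.2 ⟨y - p, ha, p, hp, by abel⟩)
    have h3 := card_le_univ (P ∪ P.image (fun p => y - p))
    rw [card_union_of_disjoint h2, card_image_of_injective _ sub_right_injective] at h3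
    omega
  have hcard1 : #(ball P 1) = #P := card_ball_one
  have hPpos : 1 ≤ #P := card_pos.2 ⟨0, h0⟩
  have hP1 : 2 ≤ #P := by
    have h1 := hgrow 0 (by omega)
    have h2 : 0 < #(ball P 0) := card_pos.2 (ball_nonempty h0 0)
    rw [zero_add, hcard1] at h1
    omega
  by_contra hcon
  push Not at hcon
  -- no critical step
  have hstep : ∀ i, 1 ≤ i → #(ball P (i + 1)) + 2 ≤ Fintype.card Q →
      #(ball P i) + #P ≤ #(ball P (i + 1)) := by
    intro i hi h1
    have h2 : 2 ≤ #(ball P i) := by
      have h3 := card_le_card (hmono 1 i hi)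
      omega
    have h3 := hcon (ball P i) h2
    rw [← CQ2M.ball_succ] at h3
    have h4 := h3 h1
    omega
  -- the largest index
  have hex : ∃ j, 1 ≤ j ∧ #(ball P j) + 2 ≤ Fintype.card Q ∧
      (j + 1 ≤ t → Fintype.card Q < #(ball P (j + 1)) + 2) := by
    by_contra hno
    push Not at hno
    have h1 : ∀ j, 1 ≤ j → j ≤ t → #(ball P j) + 2 ≤ Fintype.card Q := by
      intro j hj
      induction j, hj using Nat.le_induction with
      | base =>
        intro _
        rw [hcard1]
        exact hP2
      | succ j hj ih =>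
        intro hjt
        exact (hno j hj (ih (by omega))).2
    -- then `#(ball P j) ≥ j #P` up to `t`
    have h2 : ∀ j, 1 ≤ j → j ≤ t → j * #P ≤ #(ball P j) := by
      intro j hj
      induction j, hj using Nat.le_induction with
      | base =>
        intro _
        rw [hcard1, one_mul]
      | succ j hj ih =>
        intro hjt
        have h3 := hstep j hj (h1 (j + 1) (by omega) hjt)
        have h4 := ih (by omega)
        rw [add_mul, one_mul]
        omega
    have h3 := h2 m (by omega) ht
    have h4 := h1 m (by omega) ht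
    omega
  obtain ⟨j, hj1, hj2, hj3⟩ := hex
  have hjP : ∀ i, 1 ≤ i → i ≤ j → i * #P ≤ #(ball P i) := by
    intro i hi
    induction i, hi using Nat.le_induction with
    | base =>
      intro _
      rw [hcard1, one_mul]
    | succ i hi ih =>
      intro hij
      have h3 := card_le_card (hmono (i + 1) j hij)
      have h4 := hstep i hi (by omega)
      have h5 := ih (by omega)
      rw [add_mul, one_mul]
      omega
  have hjj := hjP j hj1 le_rfl
  have hjm : j < m := by
    by_contra hle
    have h1 : m * #P ≤ j * #P := Nat.mul_le_mul_right _ (by omega)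
    omega
  have hj3' := hj3 (by omega)
  have hlt : #(ball P (j + 1)) < Fintype.card Q := by
    rw [← card_univ]
    refine card_lt_card ((ssubset_univ_iff).2 fun h => ?_)
    exact hy (hmono (j + 1) t (by omega) (h ▸ mem_univ y))
  have hjt : j + 1 = t := by
    by_contra hne
    have h1 := hgrow (j + 1) (by omega)
    have h2 : #(ball P (j + 1 + 1)) < Fintype.card Q := by
      rw [← card_univ]
      refine card_lt_card ((ssubset_univ_iff).2 fun h => ?_)
      exact hy (hmono (j + 1 + 1) t (by omega) (h ▸ mem_univ y))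
    omega
  -- the dual count
  have h2 : Disjoint (ball P j) (P.image (fun p => y - p)) := by
    rw [disjoint_left]
    intro a ha ha'
    obtain ⟨p, hp, rfl⟩ := mem_image.1 ha'
    refine hy ?_
    rw [← hjt, CQ2M.ball_succ]
    exact Finset.mem_add.2 ⟨y - p, ha, p, hp, by abel⟩
  have h3 := card_le_univ (ball P j ∪ P.image (fun p => y - p))
  rw [card_union_of_disjoint h2, card_image_of_injective _ sub_right_injective] at h3
  have h4 : m * #P ≤ (j + 1) * #P := Nat.mul_le_mul_right _ (by omega)
  rw [add_mul, one_mul] at h4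
  omega

/-- `critical` from the statement of `vosper` -/
theorem critical_of_vosper {P : Finset Q} {m t : ℕ}
    (hV : ∀ X : Finset Q, 2 ≤ #X → #(X + P) + 2 ≤ Fintype.card Q → #(X + P) + 1 ≤ #X + #P →
      IsAddCyclic Q ∨ ∃ H : AddSubgroup Q, H ≠ ⊥ ∧ H ≠ ⊤ ∧ #(hull H P) + 1 ≤ #P + Nat.card H)
    (h0 : (0 : Q) ∈ P)
    (hgen : AddSubgroup.closure (P : Set Q) = ⊤) (hm : 2 ≤ m) (hPm : Fintype.card Q < m * #P)
    (ht : m ≤ t) (hne : ∃ y : Q, y ∉ ball P t) (hcyc : ¬ IsAddCyclic Q) :
    ∃ K : AddSubgroup Q, K ≠ ⊥ ∧ K ≠ ⊤ ∧ #(hull K P) + 1 ≤ #P + Nat.card K := by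
  have hQ : 3 ≤ Fintype.card Q := by
    by_contra hcon
    apply hcyc
    have h1 : 0 < Fintype.card Q := Fintype.card_pos
    rcases (by omega : Fintype.card Q = 1 ∨ Fintype.card Q = 2) with h | h
    · have : Subsingleton Q := Fintype.card_le_one_iff_subsingleton.1 h.le
      infer_instance
    · have : Fact (Nat.Prime 2) := ⟨Nat.prime_two⟩
      exact isAddCyclic_of_prime_card (p := 2) (by rw [Nat.card_eq_fintype_card, h])
  obtain ⟨X, h2, hX, hc⟩ := critical_of h0 hgen hm hPm ht hne hQ
  rcases hV X h2 hX hc with h | h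
  · exact absurd h hcyc
  · exact h

/-- some proper nontrivial subgroup has a hull with less than a coset of holes -/
theorem critical {P : Finset Q} {m t : ℕ} (h0 : (0 : Q) ∈ P)
    (hgen : AddSubgroup.closure (P : Set Q) = ⊤) (hm : 2 ≤ m) (hPm : Fintype.card Q < m * #P)
    (ht : m ≤ t) (hne : ∃ y : Q, y ∉ ball P t) (hcyc : ¬ IsAddCyclic Q) :
    ∃ K : AddSubgroup Q, K ≠ ⊥ ∧ K ≠ ⊤ ∧ #(hull K P) + 1 ≤ #P + Nat.card K :=
  critical_of_vosper (fun _ h2 hX hc => RF.vosper h0 hgen h2 hX hc) h0 hgen hm hPm ht hne hcyc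

end Pool.Agent.Lib.MPa7239a.RC
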