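import Pool.Agent.Lib.MP_a7239a_co.RC.CQ1
import Pool.Agent.Lib.MP_a7239a_co.RC.CQ2

/-!
# RC, module CQ3: a cyclic quotient
-/

open Finset
open scoped Pointwise

namespace Pool.Agent.Lib.MPa7239a.RC

open Pool.Agent.Lib.MPa7239a.GC
open Pool.Agent.Lib.MPa7239a.RK

namespace CQ3M

variable {Q : Type*} [AddCommGroup Q] [Fintype Q] [DecidableEq Q] {H : AddSubgroup Q}

/-- the preimage of a set of cosets -/
noncomputable def pre (T : Finset (Q ⧸ H)) : Finset Q :=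
  (Set.toFinite ((QuotientAddGroup.mk : Q → Q ⧸ H) ⁻¹' (T : Set (Q ⧸ H)))).toFinset

omit [DecidableEq Q] in
theorem mem_pre {T : Finset (Q ⧸ H)} {x : Q} : x ∈ pre T ↔ (x : Q ⧸ H) ∈ T := by
  rw [pre, Set.Finite.mem_toFinset, Set.mem_preimage, mem_coe]

omit [DecidableEq Q] in
theorem card_pre (T : Finset (Q ⧸ H)) : #(pre T) = Nat.card H * #T := by
  have h1 := Nat.card_congr (QuotientAddGroup.preimageMkEquivAddSubgroupProdSet H (T : Set (Q ⧸ H)))
  rw [Nat.card_prod] at h1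
  have h2 : Nat.card (T : Set (Q ⧸ H)) = #T := by
    rw [Nat.card_coe_set_eq, Set.ncard_coe_finset]
  have h3 : Nat.card ((QuotientAddGroup.mk : Q → Q ⧸ H) ⁻¹' (T : Set (Q ⧸ H))) = #(pre T) := by
    rw [Nat.card_coe_set_eq, ← Set.ncard_coe_finset]
    congr 1
    ext x
    rw [Set.mem_preimage, mem_coe, mem_coe, mem_pre]
  rw [← h3, h1, h2]

theorem hull_eq [DecidableEq (Q ⧸ H)] (P : Finset Q) :
    hull H P = pre (P.image (fun x : Q => (x : Q ⧸ H))) := by
  ext x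
  rw [mem_hull, mem_pre, mem_image]
  constructor
  · rintro ⟨p, hp, h⟩
    exact ⟨p, hp, (QuotientAddGroup.eq_iff_sub_mem.2 h).symm⟩
  · rintro ⟨p, hp, h⟩
    exact ⟨p, hp, QuotientAddGroup.eq_iff_sub_mem.1 h.symm⟩

theorem subset_hull (P : Finset Q) : P ⊆ hull H P := fun x hx =>
  mem_hull.2 ⟨x, hx, by rw [sub_self]; exact H.zero_mem⟩

theorem hull_comap [Fintype (Q ⧸ H)] [DecidableEq (Q ⧸ H)] (P : Finset Q) (K : AddSubgroup (Q ⧸ H)) :
    hull (K.comap (QuotientAddGroup.mk' H)) P =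
      pre (hull K (P.image (fun x : Q => (x : Q ⧸ H)))) := by
  ext x
  rw [mem_hull, mem_pre, mem_hull]
  constructor
  · rintro ⟨p, hp, h⟩
    rw [AddSubgroup.mem_comap, QuotientAddGroup.mk'_apply, QuotientAddGroup.mk_sub] at h
    exact ⟨p, mem_image_of_mem _ hp, h⟩
  · rintro ⟨p', hp', h⟩
    obtain ⟨p, hp, rfl⟩ := mem_image.1 hp'
    refine ⟨p, hp, ?_⟩
    rw [AddSubgroup.mem_comap, QuotientAddGroup.mk'_apply, QuotientAddGroup.mk_sub]
    exact h

omit [Fintype Q] [DecidableEq Q] in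
theorem card_comap (K : AddSubgroup (Q ⧸ H)) :
    Nat.card (K.comap (QuotientAddGroup.mk' H)) = Nat.card H * Nat.card K := by
  have h1 := Nat.card_congr (QuotientAddGroup.preimageMkEquivAddSubgroupProdSet H (K : Set (Q ⧸ H)))
  rw [Nat.card_prod] at h1
  exact h1

omit [Fintype Q] [DecidableEq Q] in
theorem ball_image [DecidableEq (Q ⧸ H)] (P : Finset Q) (k : ℕ) :
    ∀ z ∈ ball (P.image (fun x : Q => (x : Q ⧸ H))) k, ∃ r ∈ ball P k, (r : Q ⧸ H) = z := by
  induction k with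
  | zero =>
    intro z hz
    have h1 : z = 0 := mem_singleton.1 hz
    exact ⟨0, mem_singleton_self _, by rw [h1]; rfl⟩
  | succ k ih =>
    intro z hz
    obtain ⟨a, ha, b, hb, rfl⟩ := mem_ball_succ.1 hz
    obtain ⟨r, hr, rfl⟩ := ih a ha
    obtain ⟨p, hp, rfl⟩ := mem_image.1 hb
    exact ⟨r + p, mem_ball_succ.2 ⟨r, hr, p, hp, rfl⟩, rfl⟩

end CQ3M

theorem cyclic_quotient {Q : Type*} [AddCommGroup Q] [Fintype Q] [DecidableEq Q] {P : Finset Q}
    {m t : ℕ} (h0 : (0 : Q) ∈ P)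
    (hgen : AddSubgroup.closure (P : Set Q) = ⊤) (hm : 2 ≤ m) (hPm : Fintype.card Q < m * #P)
    (ht : m + 1 ≤ t) (hne : ∃ y : Q, y ∉ ball P t) :
    ∃ H : AddSubgroup Q, IsAddCyclic (Q ⧸ H) ∧ ∃ y : Q, ∀ r ∈ ball P (t - 1), y - r ∉ H := by
  classical
  -- the largest subgroup
  obtain ⟨y₀, hy₀⟩ := hne
  have hbot : (⊥ : AddSubgroup Q) ≠ ⊤ := by
    intro h
    have h1 : y₀ ∈ (⊥ : AddSubgroup Q) := by rw [h]; exact AddSubgroup.mem_top _
    rw [AddSubgroup.mem_bot] at h1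
    rw [h1] at hy₀
    exact hy₀ (zero_mem_ball h0 t)
  have hfin : Finite (AddSubgroup Q) := inferInstance
  obtain ⟨H, ⟨hH₁, hH₂⟩, hmax⟩ := Set.exists_max_image
    {H : AddSubgroup Q | H ≠ ⊤ ∧ #(hull H P) + 1 ≤ #P + Nat.card H} (fun H => Nat.card H)
    (Set.toFinite _) ⟨⊥, hbot, by
      have h1 : hull (⊥ : AddSubgroup Q) P = P := by
        ext x
        rw [mem_hull]
        constructor
        · rintro ⟨p, hp, h⟩
          rw [AddSubgroup.mem_bot, sub_eq_zero] at h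
          rw [h]
          exact hp
        · intro hx
          exact ⟨x, hx, by rw [sub_self]; exact AddSubgroup.zero_mem _⟩
      rw [h1, AddSubgroup.card_bot]⟩
  obtain ⟨y, hy⟩ : ∃ y : Q, ∀ r ∈ ball P (t - 1), y - r ∉ H := by
    by_contra hno
    push Not at hno
    exact hy₀ (lift_full h0 hgen hH₁ hH₂ (by omega) hno y₀)
  refine ⟨H, ?_, y, hy⟩
  by_contra hcyc
  have : Fintype (Q ⧸ H) := Fintype.ofFinite _
  have hHpos : 0 < Nat.card H := Nat.card_pos
  have hc1 : #(hull H P) = Nat.card H * #(P.image (fun x : Q => (x : Q ⧸ H))) := by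
    rw [CQ3M.hull_eq, CQ3M.card_pre]
  have hc2 : #P ≤ #(hull H P) := card_le_card (CQ3M.subset_hull P)
  have hcQ : Fintype.card Q = Nat.card H * Fintype.card (Q ⧸ H) := by
    rw [← Nat.card_eq_fintype_card, ← Nat.card_eq_fintype_card, mul_comm]
    exact AddSubgroup.card_eq_card_quotient_mul_card_addSubgroup H
  have hg1 : (0 : Q ⧸ H) ∈ P.image (fun x : Q => (x : Q ⧸ H)) := mem_image.2 ⟨0, h0, rfl⟩
  have hg2 : AddSubgroup.closure ((P.image (fun x : Q => (x : Q ⧸ H)) : Finset (Q ⧸ H)) :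
      Set (Q ⧸ H)) = ⊤ := by
    rw [AddSubgroup.eq_top_iff']
    intro x
    obtain ⟨x, rfl⟩ := QuotientAddGroup.mk_surjective x
    have h1 : x ∈ AddSubgroup.closure (P : Set Q) := by rw [hgen]; exact AddSubgroup.mem_top _
    have h2 : (QuotientAddGroup.mk' H) x ∈
        (AddSubgroup.closure (P : Set Q)).map (QuotientAddGroup.mk' H) :=
      AddSubgroup.mem_map_of_mem _ h1
    rw [AddMonoidHom.map_closure] at h2
    rw [coe_image]
    exact h2
  have hg3 : Fintype.card (Q ⧸ H) < m * #(P.image (fun x : Q => (x : Q ⧸ H))) := by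
    have h1 : Nat.card H * Fintype.card (Q ⧸ H) <
        Nat.card H * (m * #(P.image (fun x : Q => (x : Q ⧸ H)))) := by
      calc Nat.card H * Fintype.card (Q ⧸ H) = Fintype.card Q := hcQ.symm
        _ < m * #P := hPm
        _ ≤ m * #(hull H P) := Nat.mul_le_mul_left _ hc2
        _ = Nat.card H * (m * #(P.image (fun x : Q => (x : Q ⧸ H)))) := by rw [hc1]; ring
    exact Nat.lt_of_mul_lt_mul_left h1
  have hg4 : (y : Q ⧸ H) ∉ ball (P.image (fun x : Q => (x : Q ⧸ H))) (t - 1) := by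
    intro h
    obtain ⟨r, hr, hr'⟩ := CQ3M.ball_image P (t - 1) _ h
    exact hy r hr (QuotientAddGroup.eq_iff_sub_mem.1 hr'.symm)
  obtain ⟨K, hK₁, hK₂, hK₃⟩ := critical hg1 hg2 hm hg3 (by omega) ⟨_, hg4⟩ hcyc
  have hK₄ : Nat.card (K.comap (QuotientAddGroup.mk' H)) = Nat.card H * Nat.card K :=
    CQ3M.card_comap K
  have hK₅ : #(hull (K.comap (QuotientAddGroup.mk' H)) P) =
      Nat.card H * #(hull K (P.image (fun x : Q => (x : Q ⧸ H)))) := by
    rw [CQ3M.hull_comap, CQ3M.card_pre]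
  have h1 : Nat.card H * (#(hull K (P.image (fun x : Q => (x : Q ⧸ H)))) + 1) ≤
      Nat.card H * (#(P.image (fun x : Q => (x : Q ⧸ H))) + Nat.card K) :=
    Nat.mul_le_mul_left _ hK₃
  rw [Nat.mul_add, Nat.mul_add, mul_one, ← hK₅, ← hK₄, ← hc1] at h1
  have h2 := hmax (K.comap (QuotientAddGroup.mk' H)) ⟨?_, by omega⟩
  · rw [hK₄] at h2
    have h3 : 1 < Nat.card K := (AddSubgroup.one_lt_card_iff_ne_bot K).2 hK₁
    have h4 : Nat.card H * 2 ≤ Nat.card H * Nat.card K := Nat.mul_le_mul_left _ h3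
    omega
  · intro h
    apply hK₂
    rw [AddSubgroup.eq_top_iff'] at h ⊢
    intro x
    obtain ⟨x, rfl⟩ := QuotientAddGroup.mk_surjective x
    exact h x

end Pool.Agent.Lib.MPa7239a.RC
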