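import Pool.Agent.Lib.MP_a7239a_co.RC.Defs
import Pool.Agent.Lib.MP_a7239a_co.Lower

/-!
# Theorem R* for huge exponents: the lower bound for cyclic quotients
-/

set_option autoImplicit false

open Finset
open scoped Pointwise

namespace Pool.Agent.Lib.MPa7239a.RC

open Pool.Agent.Lib.MPa7239a.GC
open Pool.Agent.Lib.MPa7239a.RK

variable {Q : Type*} [AddCommGroup Q] [Fintype Q] [DecidableEq Q]

namespace LowcM

variable {G : Type*} [AddCommGroup G] [Fintype G] [DecidableEq G]

/-- the set of `lower_general`, with its properties -/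
theorem exists_set {m κ t : ℕ} (hn : Fintype.card G = m * κ) {π : G →+ Q}
    (hπ : Function.Surjective π) {P : Finset Q} (hP : Spans P) (y : Q)
    (hQ : Fintype.card Q < m * P.card) (ht : t ≤ Fintype.card Q)
    (hκ : 4 * Fintype.card Q ^ 3 ≤ κ) :
    ∃ A : Finset G, A.card = κ + t ∧ (∀ a ∈ A, π a ∈ P) ∧ π (∑ a ∈ A, a) = y := by
  classical
  set q := Fintype.card Q with hq
  have hqpos : 0 < q := Fintype.card_pos
  have hPn : P.Nonempty := by
    rw [← card_pos]
    by_contra h
    have : P.card = 0 := by omega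
    rw [this] at hQ
    omega
  have hPq : P.card ≤ q := card_le_univ _
  -- size of the fibres
  set c := (fib π 0).card with hc
  have hcq : c * q = m * κ := by
    rw [hc, hq, card_fib hπ 0, hn]
  have hcp : ∀ p, (fib π p).card = c := by
    intro p
    have h1 := card_fib hπ p
    rw [← hq, hn, ← hcq] at h1
    exact Nat.eq_of_mul_eq_mul_right hqpos h1
  have hq2 : q ^ 2 = q * q := by ring
  have hq3 : q ^ 3 = q * q * q := by ring
  have hcap : κ + t + P.card * q ≤ P.card * c := by
    have h1 : (q + 1) * κ ≤ m * P.card * κ := Nat.mul_le_mul_right _ hQ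
    have h2 : m * P.card * κ = P.card * c * q := by
      calc m * P.card * κ = P.card * (m * κ) := by ring
        _ = P.card * (c * q) := by rw [hcq]
        _ = P.card * c * q := by ring
    rw [h2] at h1
    -- (q+1) κ ≤ (P.card * c) * q
    have h3 : (κ + t + P.card * q) * q ≤ (q + 1) * κ := by
      have e1 : t * q ≤ q * q := Nat.mul_le_mul_right _ ht
      have e2 : P.card * q * q ≤ q * q * q := by
        apply Nat.mul_le_mul_right
        exact Nat.mul_le_mul_right _ hPq
      have e3 : q * q ≤ q * q * q := Nat.le_mul_of_pos_right _ hqpos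
      have e4 : (κ + t + P.card * q) * q = κ * q + t * q + P.card * q * q := by ring
      have e5 : (q + 1) * κ = κ * q + κ := by ring
      rw [hq3] at hκ
      omega
    exact Nat.le_of_mul_le_mul_right (h3.trans h1) hqpos
  have hc2q : 2 * q ≤ c := by
    have h1 : P.card * (2 * q) ≤ P.card * c := by
      refine le_trans ?_ hcap
      have e1 : P.card * q ≤ q * q := Nat.mul_le_mul_right _ hPq
      have e2 : q * q ≤ q * q * q := Nat.le_mul_of_pos_right _ hqpos
      rw [hq3] at hκ
      have e3 : P.card * (2 * q) = P.card * q + P.card * q := by ring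
      omega
    exact Nat.le_of_mul_le_mul_left h1 (card_pos.2 hPn)
  -- mandatory and forbidden elements
  have hL : ∀ p : Q, ∃ L ⊆ fib π p, L.card = q := by
    intro p
    apply exists_subset_card_eq
    rw [hcp]
    omega
  choose L hLs hLc using hL
  have hU : ∀ p : Q, ∃ U ⊆ fib π p \ L p, U.card = q := by
    intro p
    apply exists_subset_card_eq
    have h1 := card_sdiff_add_card_eq_card (hLs p)
    rw [hLc, hcp] at h1
    omega
  choose U hUs hUc using hU
  have hdisjfib : ∀ p p' : Q, p ≠ p' → Disjoint (fib π p) (fib π p') := by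
    intro p p' hne
    rw [Finset.disjoint_left]
    intro x hx hx'
    rw [mem_fib] at hx hx'
    exact hne (hx.symm.trans hx')
  have hLU : P.biUnion L ⊆ P.biUnion (fun p => fib π p \ U p) := by
    intro x hx
    rw [mem_biUnion] at hx ⊢
    obtain ⟨p, hp, hxp⟩ := hx
    refine ⟨p, hp, ?_⟩
    rw [mem_sdiff]
    refine ⟨hLs p hxp, ?_⟩
    intro h
    have := hUs p h
    rw [mem_sdiff] at this
    exact this.2 hxp
  have hLcard : (P.biUnion L).card = P.card * q := by
    rw [card_biUnion]
    · rw [sum_congr rfl (fun p _ => hLc p), sum_const, smul_eq_mul]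
    · intro p _ p' _ hne
      exact (hdisjfib p p' hne).mono (hLs p) (hLs p')
  have hUcard : (P.biUnion (fun p => fib π p \ U p)).card = P.card * (c - q) := by
    rw [card_biUnion]
    · have h1 : ∀ p ∈ P, (fib π p \ U p).card = c - q := by
        intro p _
        have h2 := card_sdiff_add_card_eq_card ((hUs p).trans sdiff_subset)
        rw [hUc, hcp] at h2
        omega
      rw [sum_congr rfl h1, sum_const, smul_eq_mul]
    · intro p _ p' _ hne
      exact (hdisjfib p p' hne).mono sdiff_subset sdiff_subset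
  obtain ⟨A₀, hLA, hAU, hAc⟩ := exists_subsuperset_card_eq hLU (n := κ + t) (by
    rw [hLcard]
    have e1 : P.card * q ≤ q * q := Nat.mul_le_mul_right _ hPq
    have e2 : q * q ≤ q * q * q := Nat.le_mul_of_pos_right _ hqpos
    rw [hq3] at hκ
    omega) (by
    rw [hUcard, Nat.mul_sub]
    omega)
  have hA₀P : ∀ a ∈ A₀, π a ∈ P := by
    intro a ha
    have := hAU ha
    rw [mem_biUnion] at this
    obtain ⟨p, hp, hap⟩ := this
    rw [mem_sdiff, mem_fib] at hap
    rw [hap.1]
    exact hp
  obtain ⟨A, hAc', hAP, hAs⟩ := swap_lemma q A₀ (y - π (∑ a ∈ A₀, a)) hA₀P (by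
    intro p hp
    rw [← hLc p]
    apply card_le_card
    intro x hx
    rw [mem_inter]
    exact ⟨hLA (mem_biUnion.2 ⟨p, hp, hx⟩), hLs p hx⟩) (by
    intro p hp
    rw [← hUc p]
    apply card_le_card
    intro x hx
    rw [mem_sdiff]
    have hxf : x ∈ fib π p := (mem_sdiff.1 (hUs p hx)).1
    refine ⟨hxf, ?_⟩
    intro hxA
    have := hAU hxA
    rw [mem_biUnion] at this
    obtain ⟨p', _, hxp'⟩ := this
    rw [mem_sdiff] at hxp'
    have hpp : p = p' := by
      rw [mem_fib] at hxf
      have := mem_fib.1 hxp'.1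
      rw [← hxf, this]
    rw [hpp] at hx
    exact hxp'.2 hx) (by
    rw [hq, reach_eq_univ hPn hP]
    exact mem_univ _)
  refine ⟨A, by rw [hAc', hAc], hAP, ?_⟩
  rw [hAs]
  abel

end LowcM

/-- `Lower.lean`, `lower_general`: its proof gives `Misses P t (π (∑ A))`, so all sums of `n`
elements are nonzero in `Q` (see `WZF_of_misses`); compose with `Q ≃ ZMod (card Q)`. -/
theorem lower_cyc {G : Type*} [AddCommGroup G] [Fintype G] [DecidableEq G] {m n t : ℕ}
    (hn : Fintype.card G = m * n) {π : G →+ Q} (hπ : Function.Surjective π)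
    (hcyc : IsAddCyclic Q) (hQ1 : 1 < Fintype.card Q) {P : Finset Q} (hP : Spans P) {y : Q}
    (hy : Misses P t y) (hQ : Fintype.card Q < m * #P) (ht : t ≤ Fintype.card Q)
    (hκ : 4 * Fintype.card Q ^ 3 ≤ n) : ∃ A : Finset G, #A = n + t ∧ CycFree A n := by
  obtain ⟨A, hA, hAP, hAs⟩ := LowcM.exists_set hn hπ hP y hQ ht hκ
  refine ⟨A, hA, ?_⟩
  have key : ∀ T ⊆ A, #T = n → π (∑ x ∈ T, x) ≠ 0 := by
    intro T hT hTc hTs
    have h1 : #(A \ T) = t := by
      have := card_sdiff_add_card_eq_card hT
      omega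
    have h2 := sum_sdiff hT (f := fun a => a)
    let e : Fin t ≃ (A \ T : Finset G) := (equivFinOfCardEq h1).symm
    apply hy (fun i => π (e i : G)) (fun i => hAP _ (mem_sdiff.1 (e i).2).1)
    have h3 : ∑ i, π (e i : G) = ∑ a ∈ A \ T, π a := by
      rw [← sum_coe_sort (A \ T) (fun a => π a)]
      exact e.sum_comp (fun a : (A \ T : Finset G) => π (a : G))
    rw [h3, ← map_sum, ← hAs, ← h2, map_add, hTs, add_zero]
  let E : ZMod (Nat.card Q) ≃+ Q := zmodAddCyclicAddEquiv hcyc
  refine ⟨Nat.card Q, (E.symm : Q →+ ZMod (Nat.card Q)).comp π, ?_, ?_, ?_⟩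
  · rw [Nat.card_eq_fintype_card]
    exact hQ1
  · intro z
    obtain ⟨g, hg⟩ := hπ (E z)
    refine ⟨g, ?_⟩
    rw [AddMonoidHom.comp_apply, hg]
    exact E.symm_apply_apply z
  · intro T hT hTc h0
    apply key T hT hTc
    have h1 : E.symm (π (∑ x ∈ T, x)) = 0 := h0
    exact (AddEquiv.map_eq_zero_iff _).1 h1

end Pool.Agent.Lib.MPa7239a.RC
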