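import Pool.Agent.Lib.MP_a7239a_co.RC.CQ3
import Pool.Agent.Lib.MP_a7239a_co.RC.LOWC
import Pool.Agent.Lib.MP_a7239a_co.RB.CYC3
import Pool.Agent.Lib.MP_a7239a_co.PolyK

/-!
# Theorem R* for huge exponents
-/

open Finset
open scoped Pointwise

namespace Pool.Agent.Lib.MPa7239a.RC

open Pool.Agent.Lib.MPa7239a.GC
open Pool.Agent.Lib.MPa7239a.RK

namespace FINCM

/-- sums of translated elements -/
theorem ball_translate {Q : Type*} [AddCommGroup Q] [DecidableEq Q] {P : Finset Q} {p₀ : Q} :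
    ∀ (k : ℕ) (x : Q), x ∈ ball (P.image (fun p => p - p₀)) k →
      ∃ f : Fin k → Q, (∀ i, f i ∈ P) ∧ ∑ i, f i = x + k • p₀ := by
  intro k
  induction k with
  | zero =>
    intro x hx
    rw [mem_ball_zero] at hx
    exact ⟨fun i => i.elim0, fun i => i.elim0, by rw [hx]; simp⟩
  | succ k ih =>
    intro x hx
    obtain ⟨z, hz, d, hd, rfl⟩ := mem_ball_succ.1 hx
    obtain ⟨p, hp, rfl⟩ := mem_image.1 hd
    obtain ⟨f, hf, hfs⟩ := ih z hz
    refine ⟨Fin.snoc f p, ?_, ?_⟩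
    · intro i
      refine Fin.lastCases ?_ (fun j => ?_) i
      · rw [Fin.snoc_last]
        exact hp
      · rw [Fin.snoc_castSucc]
        exact hf j
    · rw [Fin.sum_univ_castSucc]
      simp only [Fin.snoc_castSucc, Fin.snoc_last]
      rw [hfs, succ_nsmul]
      abel

/-- a sum of `k` elements lies in the ball -/
theorem sum_mem_ball {Q : Type*} [AddCommGroup Q] {P : Finset Q} :
    ∀ (k : ℕ) (f : Fin k → Q), (∀ i, f i ∈ P) → ∑ i, f i ∈ ball P k := by
  intro k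
  induction k with
  | zero =>
    intro f _
    rw [mem_ball_zero]
    simp
  | succ k ih =>
    intro f hf
    rw [Fin.sum_univ_castSucc]
    exact mem_ball_succ.2 ⟨_, ih _ (fun i => hf _), _, hf _, rfl⟩

/-- the balls grow -/
theorem growth {Q : Type*} [AddCommGroup Q] [Fintype Q] [DecidableEq Q] {P : Finset Q} {t : ℕ}
    {y : Q} (h0 : (0 : Q) ∈ P) (hgen : AddSubgroup.closure (P : Set Q) = ⊤) (hy : y ∉ ball P t) :
    t + 2 ≤ Fintype.card Q := by
  have h1 : ∀ i, i ≤ t → i + 1 ≤ #(ball P i) := by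
    intro i
    induction i with
    | zero =>
      intro _
      exact card_pos.2 (ball_nonempty h0 0)
    | succ i ih =>
      intro hi
      have h2 := ih (by omega)
      by_contra hcon
      have h3 := eq_of_subset_of_card_le (ball_mono h0 (by omega : i ≤ i + 1)) (by omega)
      exact hy (ball_mono h0 (by omega : i ≤ t) (CQ2M.eq_univ_of_stable h0 hgen h3.symm.subset y))
  have h2 : #(ball P t) < Fintype.card Q := by
    rw [← card_univ]
    refine card_lt_card ((ssubset_univ_iff).2 fun h => ?_)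
    exact hy (h ▸ mem_univ y)
  have h3 := h1 t le_rfl
  omega

/-- a good `t₀ > m` gives a cyclically free set with `n + t₀ - 1` elements -/
theorem of_good {G : Type*} [AddCommGroup G] [Fintype G] [DecidableEq G] {m n t₀ : ℕ} (hm : 2 ≤ m)
    (hn : Fintype.card G = m * n) (hκ : 4 * (m * m) ^ 3 ≤ n) (ht : m + 1 ≤ t₀)
    (hg : Good G m t₀) : ∃ A : Finset G, #A = n + (t₀ - 1) ∧ CycFree A n := by
  classical
  obtain ⟨K, P, hP, ⟨y, hy⟩, h1, h2⟩ := hg
  have : Fintype (G ⧸ K) := Fintype.ofFinite _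
  have hw := two_le_card_of_spans hP (by omega)
  have h3 := good_arith ht hw h1 h2
  obtain ⟨p₀, hp₀⟩ : P.Nonempty := card_pos.1 (by omega)
  -- translate
  set P₀ : Finset (G ⧸ K) := P.image (fun p => p - p₀) with hP₀
  have hc₀ : #P₀ = #P := card_image_of_injective _ (sub_left_injective)
  have h0 : (0 : G ⧸ K) ∈ P₀ := mem_image.2 ⟨p₀, hp₀, sub_self p₀⟩
  have hgen : AddSubgroup.closure (P₀ : Set (G ⧸ K)) = ⊤ := by
    apply hP
    intro a ha b hb
    have e : a - b = (a - p₀) - (b - p₀) := by abel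
    rw [e]
    exact AddSubgroup.sub_mem _
      (AddSubgroup.subset_closure (mem_coe.2 (mem_image.2 ⟨a, ha, rfl⟩)))
      (AddSubgroup.subset_closure (mem_coe.2 (mem_image.2 ⟨b, hb, rfl⟩)))
  have hy₀ : y - t₀ • p₀ ∉ ball P₀ t₀ := by
    intro h
    obtain ⟨f, hf, hfs⟩ := ball_translate t₀ _ h
    apply hy f hf
    rw [hfs]
    abel
  have hcardK : Fintype.card (G ⧸ K) = Nat.card (G ⧸ K) := by rw [Nat.card_eq_fintype_card]
  obtain ⟨H, hHc, y₁, hy₁⟩ := cyclic_quotient (Q := G ⧸ K) h0 hgen hm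
    (by rw [hc₀, hcardK]; exact h2) ht ⟨_, hy₀⟩
  -- the second quotient
  have : Fintype ((G ⧸ K) ⧸ H) := Fintype.ofFinite _
  set P' : Finset ((G ⧸ K) ⧸ H) := P₀.image (fun x : G ⧸ K => (x : (G ⧸ K) ⧸ H)) with hP'
  have h0' : (0 : (G ⧸ K) ⧸ H) ∈ P' := mem_image.2 ⟨0, h0, rfl⟩
  have hHpos : 0 < Nat.card H := Nat.card_pos
  have hc1 : #(hull H P₀) = Nat.card H * #P' := by
    rw [CQ3M.hull_eq, CQ3M.card_pre]
  have hc2 : #P₀ ≤ #(hull H P₀) := card_le_card (CQ3M.subset_hull P₀)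
  have hcQ : Fintype.card (G ⧸ K) = Nat.card H * Fintype.card ((G ⧸ K) ⧸ H) := by
    rw [← Nat.card_eq_fintype_card, ← Nat.card_eq_fintype_card, mul_comm]
    exact AddSubgroup.card_eq_card_quotient_mul_card_addSubgroup H
  have hsub : ∀ N : AddSubgroup ((G ⧸ K) ⧸ H), (∀ p ∈ P', p ∈ N) → N = ⊤ := by
    intro N hN
    have e1 : AddSubgroup.closure (P₀ : Set (G ⧸ K)) ≤ N.comap (QuotientAddGroup.mk' H) := by
      rw [AddSubgroup.closure_le]
      intro p hp
      exact hN _ (mem_image.2 ⟨p, mem_coe.1 hp, rfl⟩)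
    rw [hgen] at e1
    rw [eq_top_iff]
    intro x _
    obtain ⟨x, rfl⟩ := QuotientAddGroup.mk_surjective x
    exact e1 (AddSubgroup.mem_top x)
  have hgen' : AddSubgroup.closure (P' : Set ((G ⧸ K) ⧸ H)) = ⊤ :=
    hsub _ fun p hp => AddSubgroup.subset_closure (mem_coe.2 hp)
  have hspan : Spans P' := by
    intro N hN
    apply hsub
    intro p hp
    have := hN p hp 0 h0'
    rwa [sub_zero] at this
  have hy' : (y₁ : (G ⧸ K) ⧸ H) ∉ ball P' (t₀ - 1) := by
    intro h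
    obtain ⟨r, hr, hr'⟩ := CQ3M.ball_image P₀ (t₀ - 1) _ h
    exact hy₁ r hr (QuotientAddGroup.eq_iff_sub_mem.1 hr'.symm)
  have hmiss : Misses P' (t₀ - 1) (y₁ : (G ⧸ K) ⧸ H) := by
    intro f hf hs
    apply hy'
    rw [← hs]
    exact sum_mem_ball _ f hf
  have hgr := growth h0' hgen' hy'
  have hcard : Fintype.card ((G ⧸ K) ⧸ H) < m * #P' := by
    have e1 : Nat.card H * Fintype.card ((G ⧸ K) ⧸ H) < Nat.card H * (m * #P') := by
      calc Nat.card H * Fintype.card ((G ⧸ K) ⧸ H) = Fintype.card (G ⧸ K) := hcQ.symm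
        _ < m * #P₀ := by rw [hc₀, hcardK]; exact h2
        _ ≤ m * #(hull H P₀) := Nat.mul_le_mul_left _ hc2
        _ = Nat.card H * (m * #P') := by rw [hc1]; ring
    exact Nat.lt_of_mul_lt_mul_left e1
  have hle : Fintype.card ((G ⧸ K) ⧸ H) ≤ m * m := by
    have e1 : Fintype.card ((G ⧸ K) ⧸ H) ≤ Fintype.card (G ⧸ K) := by
      rw [hcQ]
      exact Nat.le_mul_of_pos_left _ hHpos
    omega
  refine lower_cyc (Q := (G ⧸ K) ⧸ H) hn
    (π := (QuotientAddGroup.mk' H).comp (QuotientAddGroup.mk' K)) ?_ hHc (by omega) hspan hmiss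
    hcard (by omega) ?_
  · exact (QuotientAddGroup.mk'_surjective H).comp (QuotientAddGroup.mk'_surjective K)
  · exact le_trans (Nat.mul_le_mul_left _ (Nat.pow_le_pow_left hle 3)) hκ

end FINCM

theorem upper_cyc_C {m t N : ℕ} (hm : 3 ≤ m) (hκ : 40000 * m ^ 6 ≤ t * m)
    (hN : ∀ A : Finset (ZMod m × ZMod (t * m)), CycFree A (t * m) → #A ≤ N)
    {A : Finset (ZMod m × ZMod (t * m))} (hA : #A = N + 2) : Hit A (t * m) 0 := by
  classical
  by_contra hno
  have hm0 : 0 < m := by omega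
  have hm6 : 0 < m ^ 6 := by positivity
  have htm : 0 < t * m := by omega
  have : NeZero m := ⟨hm0.ne'⟩
  have : NeZero (t * m) := ⟨htm.ne'⟩
  have ht4 : 4 ≤ t := by
    by_contra hcon
    have e1 : t * m ≤ 3 * m := Nat.mul_le_mul_right _ (by omega)
    have e2 : m ≤ m ^ 6 := Nat.le_self_pow (by norm_num) m
    omega
  have hexp : t * m = AddMonoid.exponent (ZMod m × ZMod (t * m)) := by
    rw [AddMonoid.exponent_prod, ZMod.exponent, ZMod.exponent]
    exact (Nat.lcm_eq_right (Dvd.intro_left t rfl)).symm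
  have hcardN : Nat.card (ZMod m × ZMod (t * m)) = m * (t * m) := by
    rw [Nat.card_prod, Nat.card_zmod, Nat.card_zmod]
  have hcardF : Fintype.card (ZMod m × ZMod (t * m)) = m * (t * m) := by
    rw [← Nat.card_eq_fintype_card, hcardN]
  obtain ⟨hcrit, ⟨-, -⟩, -⟩ := main_theorem2 m hm (ZMod m × ZMod (t * m)) (t * m) hexp hκ hcardN
  have hW : WZF (t * m) A := fun T hT hTc hTs => hno ⟨T, hT, hTc, hTs⟩
  have hle : N + 2 ≤ tauHat (ZMod m × ZMod (t * m)) (t * m) := (le_tauHat_iff htm _).2 ⟨A, hA, hW⟩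
  obtain ⟨B, hB1, hB2⟩ := RB.cyc3 ht4 hm
  have hBN := hN B hB2
  have e3 : (t + 1) * m = t * m + m := by ring
  obtain ⟨s, hs⟩ : ∃ s, tauHat (ZMod m × ZMod (t * m)) (t * m) = t * m + s :=
    ⟨tauHat (ZMod m × ZMod (t * m)) (t * m) - t * m, by omega⟩
  have hg := (hcrit s (by omega)).1 (by omega)
  have hκ2 : 4 * (m * m) ^ 3 ≤ t * m := by
    have e1 : (m * m) ^ 3 = m ^ 6 := by ring
    omega
  obtain ⟨C, hC1, hC2⟩ := FINCM.of_good (by omega) hcardF hκ2 (by omega) hg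
  have hCN := hN C hC2
  omega

end Pool.Agent.Lib.MPa7239a.RC
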